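import Pool.Agent.Lib_helper15.Bishop.Defs

/-!
# Module T: tame points carry entire functions of small exponential type
-/

set_option autoImplicit false

universe u

namespace Pool.Agent.Bishop

open MeasureTheory Set Filter
open scoped ENNReal NNReal Topology

namespace T47

/-- canonical slope -/
noncomputable def cs (S : ℤ → ℝ) (i : ℕ) : ℝ := S (2 ^ i) / 2 ^ i

lemma icc_ne (i : ℕ) : (Finset.Icc (-(2:ℤ)^i) (2^i)).Nonempty := ⟨0, by simp⟩

/-- canonical error -/
noncomputable def cr (S : ℤ → ℝ) (i : ℕ) : ℝ :=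
  (Finset.Icc (-(2:ℤ)^i) (2^i)).sup' (icc_ne i) (fun n => |S n - n * cs S i|)

lemma le_cr (S : ℤ → ℝ) (i : ℕ) (n : ℤ) (hn : |(n:ℝ)| ≤ 2 ^ i) :
    |S n - n * cs S i| ≤ cr S i := by
  apply Finset.le_sup' (fun n : ℤ => |S n - n * cs S i|)
  rw [Finset.mem_Icc]
  have h := abs_le.mp hn
  constructor
  · exact_mod_cast h.1
  · exact_mod_cast h.2

lemma cr_nonneg (S : ℤ → ℝ) (i : ℕ) : 0 ≤ cr S i :=
  (abs_nonneg _).trans (le_cr S i 0 (by simp))

lemma cr_le (S : ℤ → ℝ) (i : ℕ) (s r : ℝ)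
    (h : ∀ n : ℤ, |(n:ℝ)| ≤ 2 ^ i → |S n - n * s| ≤ r) : cr S i ≤ 2 * r := by
  have h1 : |S (2^i) - 2^i * s| ≤ r := by
    have := h (2^i) (by push_cast; rw [abs_of_pos (by positivity)])
    simpa using this
  apply Finset.sup'_le
  intro n hn
  have hn' : |(n:ℝ)| ≤ 2^i := by
    rw [Finset.mem_Icc] at hn
    rw [abs_le]
    constructor
    · exact_mod_cast hn.1
    · exact_mod_cast hn.2
  have h2 := h n hn'
  have h3 : |cs S i - s| ≤ r / 2^i := by
    rw [cs]
    have : S (2 ^ i) / 2 ^ i - s = (S (2^i) - 2^i * s)/2^i := by field_simp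
    rw [this, abs_div, abs_of_pos (by positivity : (0:ℝ) < 2^i)]
    gcongr
  calc |S n - n * cs S i| = |(S n - n * s) - n * (cs S i - s)| := by ring_nf
    _ ≤ |S n - n * s| + |(n:ℝ) * (cs S i - s)| := abs_sub _ _
    _ ≤ r + 2^i * (r/2^i) := by rw [abs_mul]; gcongr
    _ = 2 * r := by field_simp; ring

lemma cs_step (S : ℤ → ℝ) (i : ℕ) : 2 ^ i * |cs S i - cs S (i+1)| ≤ cr S (i+1) := by
  have h := le_cr S (i+1) (2^i) (by
    push_cast
    rw [abs_of_pos (by positivity)]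
    exact pow_le_pow_right₀ (by norm_num) (by omega))
  have e : S (2 ^ i) = 2 ^ i * cs S i := by rw [cs]; field_simp
  rw [e] at h
  push_cast at h
  rw [← mul_sub, abs_mul, abs_of_pos (by positivity : (0:ℝ) < 2^i)] at h
  exact h

noncomputable def Mf (S : ℤ → ℝ) (j0 j : ℕ) : ℕ := if j0 ≤ j then ⌈2 * cr S (j+1)⌉₊ else 0

noncomputable def mf (S : ℤ → ℝ) (c j0 j : ℕ) : ℕ :=
  if j0 ≤ j then ⌈2 * cr S (j+1)⌉₊ + (⌈2 * cr S (j+2)⌉₊ + 2*c + 2*j + 6) else 0

noncomputable def sf (S : ℤ → ℝ) (j0 j : ℕ) : ℝ := if j0 ≤ j then cs S j - cs S (j+1) else 0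

lemma sf_le (S : ℤ → ℝ) (j0 j : ℕ) : 2 ^ (j + 1) * |sf S j0 j| ≤ Mf S j0 j := by
  by_cases h : j0 ≤ j
  · simp only [sf, Mf, h, if_true]
    have h1 := cs_step S j
    have h2 := Nat.le_ceil (2 * cr S (j+1))
    rw [pow_succ]
    nlinarith
  · simp [sf, Mf, h]

lemma Mf_le (S : ℤ → ℝ) (c j0 j : ℕ) : Mf S j0 j ≤ mf S c j0 j := by
  by_cases h : j0 ≤ j
  · simp only [mf, Mf, h, if_true]; omega
  · simp [mf, Mf, h]

/-- the condition defining the good set -/
def good (S : ℤ → ℝ) (a : ℝ) (c j0 : ℕ) : Prop :=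
  (∀ i, j0 ≤ i → |cs S i| ≤ c) ∧ ∀ n, ∑ j ∈ Finset.range n, (mf S c j0 j : ℝ) / 2 ^ j ≤ a / 6

lemma good.summ {S : ℤ → ℝ} {a : ℝ} {c j0 : ℕ} (h : good S a c j0) :
    Summable fun j => (mf S c j0 j : ℝ) / 2 ^ j :=
  summable_of_sum_range_le (fun _ => by positivity) h.2

lemma good.tsum_le {S : ℤ → ℝ} {a : ℝ} {c j0 : ℕ} (h : good S a c j0) :
    6 * ∑' j, (mf S c j0 j : ℝ) / 2 ^ j ≤ a := by
  have := Real.tsum_le_of_sum_range_le (fun _ => by positivity) h.2
  linarith

lemma exists_good (S : ℤ → ℝ) (a : ℝ) (ha : 0 < a)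
    (h : ∃ s r : ℕ → ℝ, (Summable fun i => r i / 2 ^ i) ∧
      ∀ (i : ℕ) (n : ℤ), |(n : ℝ)| ≤ 2 ^ i → |S n - n * s i| ≤ r i) :
    ∃ c j0 : ℕ, good S a c j0 := by
  obtain ⟨s, r, hr, hsr⟩ := h
  have hc : Summable fun i => cr S i / 2 ^ i := by
    apply Summable.of_nonneg_of_le (fun i => div_nonneg (cr_nonneg S i) (by positivity)) _
      (hr.mul_left 2)
    intro i
    rw [← mul_div_assoc]
    gcongr
    exact cr_le S i (s i) (r i) (hsr i)
  have hc1 : Summable fun i => cr S (i+1) / 2 ^ i := by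
    have := ((summable_nat_add_iff 1).mpr hc).mul_left 2
    refine this.congr (fun i => ?_)
    rw [pow_succ]; field_simp
  have hc2 : Summable fun i => cr S (i+2) / 2 ^ i := by
    have := ((summable_nat_add_iff 2).mpr hc).mul_left 4
    refine this.congr (fun i => ?_)
    rw [pow_add]; field_simp; ring
  -- the slopes are bounded
  have hcau : CauchySeq fun i => cs S i := by
    apply cauchySeq_of_summable_dist
    apply Summable.of_nonneg_of_le (fun i => dist_nonneg) _ hc1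
    intro i
    rw [Real.dist_eq, le_div_iff₀ (by positivity), mul_comm]
    exact cs_step S i
  obtain ⟨b, hb0, hb⟩ := cauchySeq_bdd hcau
  have hbd : ∀ i, |cs S i| ≤ |cs S 0| + b := by
    intro i
    have h1 := hb i 0
    rw [Real.dist_eq] at h1
    calc |cs S i| = |cs S 0 + (cs S i - cs S 0)| := by ring_nf
      _ ≤ |cs S 0| + |cs S i - cs S 0| := abs_add_le _ _
      _ ≤ _ := by linarith
  obtain ⟨c, hcc⟩ := exists_nat_ge (|cs S 0| + b)
  -- the majorant
  set f : ℕ → ℝ := fun j => (⌈2 * cr S (j+1)⌉₊ + (⌈2 * cr S (j+2)⌉₊ + 2*c + 2*j + 6) : ℕ) / 2 ^ j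
    with hf
  have hfs : Summable f := by
    have hg1 : Summable fun j : ℕ => ((j:ℝ) ^ 1 * (1/2 : ℝ)^j) :=
      summable_pow_mul_geometric_of_norm_lt_one 1 (by norm_num)
    have hg0 : Summable fun j : ℕ => ((1/2 : ℝ)^j) := summable_geometric_two
    have hbig : Summable fun j : ℕ => 2 * (cr S (j+1) / 2 ^ j) + 2 * (cr S (j+2) / 2 ^ j)
        + (2 * ((j:ℝ) ^ 1 * (1/2 : ℝ)^j) + (2 * c + 8) * (1/2 : ℝ)^j) :=
      ((hc1.mul_left 2).add (hc2.mul_left 2)).add ((hg1.mul_left 2).add (hg0.mul_left _))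
    apply Summable.of_nonneg_of_le (fun j => by positivity) _ hbig
    intro j
    have e1 := (Nat.ceil_lt_add_one (by have := cr_nonneg S (j+1); positivity :
      0 ≤ 2 * cr S (j+1))).le
    have e2 := (Nat.ceil_lt_add_one (by have := cr_nonneg S (j+2); positivity :
      0 ≤ 2 * cr S (j+2))).le
    have e3 : (((⌈2 * cr S (j+1)⌉₊ + (⌈2 * cr S (j+2)⌉₊ + 2*c + 2*j + 6) : ℕ)) : ℝ) ≤
        2 * cr S (j+1) + 2 * cr S (j+2) + (2 * j + (2 * c + 8)) := by
      push_cast; linarith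
    calc f j ≤ (2 * cr S (j+1) + 2 * cr S (j+2) + (2 * j + (2 * c + 8))) / 2 ^ j := by
          rw [hf]; dsimp only; gcongr
      _ = _ := by rw [one_div, inv_pow, pow_one]; field_simp
  have hf0 : ∀ j, 0 ≤ f j := fun j => by positivity
  obtain ⟨s0, hs0⟩ := summable_iff_vanishing_norm.mp hfs (a / 6) (by positivity)
  obtain ⟨j0, hj0⟩ := s0.bddAbove
  refine ⟨c, j0 + 1, fun i _ => (hbd i).trans hcc, fun n => ?_⟩
  have e : ∑ j ∈ Finset.range n, (mf S c (j0+1) j : ℝ) / 2 ^ j =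
      ∑ j ∈ (Finset.range n).filter (fun j => j0 + 1 ≤ j), f j := by
    rw [Finset.sum_filter]
    apply Finset.sum_congr rfl
    intro j _
    by_cases h : j0 + 1 ≤ j
    · simp only [mf, h, if_true, hf]
    · simp [mf, h]
  rw [e]
  have := hs0 ((Finset.range n).filter (fun j => j0 + 1 ≤ j)) (by
    rw [Finset.disjoint_left]
    intro j hj hj'
    have := hj0 hj'
    rw [Finset.mem_filter] at hj
    omega)
  exact (le_abs_self _).trans this.le

/-- limit slope -/
noncomputable def sinf (S : ℤ → ℝ) (j0 : ℕ) : ℝ := cs S j0 - ∑' j, sf S j0 j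

lemma sum_sf (S : ℤ → ℝ) (j0 i : ℕ) (hi : j0 ≤ i) :
    ∑ j ∈ Finset.range i, sf S j0 j = cs S j0 - cs S i := by
  induction i, hi using Nat.le_induction with
  | base =>
    rw [sub_self]
    apply Finset.sum_eq_zero
    intro j hj
    rw [Finset.mem_range] at hj
    simp [sf, not_le.mpr hj]
  | succ i hi ih =>
    rw [Finset.sum_range_succ, ih]
    simp only [sf, hi, if_true]
    ring

lemma tail (S : ℤ → ℝ) (j0 i : ℕ) (hi : j0 ≤ i) (hs : Summable (sf S j0)) :
    sinf S j0 + ∑' j, sf S j0 (i + j) = cs S i := by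
  have h := hs.sum_add_tsum_nat_add i
  rw [sum_sf S j0 i hi] at h
  have e : ∑' j, sf S j0 (i + j) = ∑' j, sf S j0 (j + i) :=
    tsum_congr (fun j => by rw [add_comm])
  rw [e, sinf]
  linarith

noncomputable def CC (a : ℝ) (c j0 : ℕ) : ℝ :=
  (1 + 4 ^ (j0 + 2)) * Real.exp (c * 2 ^ j0 + c * 2 ^ (j0 + 2) + a * 2 ^ j0)

lemma est (hP : ModP) (S : ℤ → ℝ) (a : ℝ) (ha : 0 < a) (c j0 : ℕ) (hg : good S a c j0)
    (n : ℤ) (z : ℂ) (hz : |z.re| < 2) :
    ‖Complex.exp (sinf S j0 * (z + n)) * Ep (sf S j0) (Mf S j0) (mf S c j0) (z + n)‖ ≤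
      CC a c j0 * Real.exp (a * |z.im|) * Real.exp (S n) / (1 + (n : ℝ) ^ 2) := by
  obtain ⟨-, -, hss, hP1, hP2⟩ := hP (sf S j0) (Mf S j0) (mf S c j0) (sf_le S j0)
    (Mf_le S c j0) hg.summ
  have hty := hg.tsum_le
  have hn0 : (0:ℝ) < 1 + (n:ℝ)^2 := by positivity
  set y : ℝ := z.re + n with hy
  have hre : (z + n).re = y := by simp [hy]
  have him : (z + n).im = z.im := by simp
  have hexp : ‖Complex.exp (sinf S j0 * (z + n))‖ = Real.exp (sinf S j0 * y) := by
    rw [Complex.norm_exp, Complex.re_ofReal_mul, hre]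
  rw [norm_mul, hexp, le_div_iff₀ hn0]
  have hny : |(n:ℝ)| ≤ |y| + 2 := by
    have : (n:ℝ) = y - z.re := by rw [hy]; ring
    rw [this]
    exact (abs_sub _ _).trans (by linarith)
  have hv : 0 ≤ |z.im| := abs_nonneg _
  have hc0 : (0:ℝ) ≤ c := Nat.cast_nonneg c
  have hcv : 6 * (∑' j, (mf S c j0 j : ℝ) / 2 ^ j) * |z.im| ≤ a * |z.im| :=
    mul_le_mul_of_nonneg_right hty hv
  rcases le_or_gt |y| (2 ^ j0) with hyj | hyj
  · -- bounded range
    have h1 := hP1 j0 (z + n) (fun j hj => by simp [mf, not_le.mpr hj]) (by rw [hre]; exact hyj)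
    rw [hre, him] at h1
    have h2 : Real.exp (sinf S j0 * y) * ‖Ep (sf S j0) (Mf S j0) (mf S c j0) (z + n)‖ ≤
        Real.exp (cs S j0 * y) * Real.exp (a * |z.im|) := by
      calc _ ≤ Real.exp (sinf S j0 * y) * Real.exp (y * (∑' j, sf S j0 (j0 + j)) +
            6 * (∑' j, (mf S c j0 j : ℝ) / 2 ^ j) * |z.im|) := by gcongr
        _ = Real.exp (cs S j0 * y) * Real.exp (6 * (∑' j, (mf S c j0 j : ℝ) / 2 ^ j) * |z.im|) := by
          rw [← Real.exp_add, ← Real.exp_add, ← tail S j0 j0 le_rfl hss]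
          congr 1; ring
        _ ≤ _ := by gcongr
    have hpow : (2:ℝ) ^ (j0 + 2) = 4 * 2 ^ j0 := by ring
    have h2j : (1:ℝ) ≤ 2 ^ j0 := one_le_pow₀ (by norm_num)
    have hn1 : |(n:ℝ)| ≤ 2 ^ (j0 + 2) := by rw [hpow]; linarith
    have hr := le_cr S (j0 + 2) n hn1
    have hr2 : cr S (j0 + 2) ≤ a * 2 ^ j0 := by
      have h3 : (mf S c j0 j0 : ℝ) / 2 ^ j0 ≤ a / 6 := by
        refine le_trans ?_ (hg.2 (j0 + 1))
        exact Finset.single_le_sum (f := fun j => (mf S c j0 j : ℝ) / 2 ^ j)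
          (fun _ _ => by positivity) (by simp)
      rw [div_le_iff₀ (by positivity)] at h3
      have h4 : 2 * cr S (j0 + 2) ≤ mf S c j0 j0 := by
        have h5 := Nat.le_ceil (2 * cr S (j0+2))
        simp only [mf, le_refl, if_true]
        push_cast
        have : (0:ℝ) ≤ (⌈2 * cr S (j0+1)⌉₊ : ℝ) := Nat.cast_nonneg _
        linarith
      nlinarith
    have hb1 : cs S j0 * y ≤ c * 2 ^ j0 := by
      calc cs S j0 * y ≤ |cs S j0 * y| := le_abs_self _
        _ = |cs S j0| * |y| := abs_mul _ _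
        _ ≤ _ := mul_le_mul (hg.1 j0 le_rfl) hyj (abs_nonneg _) hc0
    have hb2 : -(n * cs S (j0+2)) ≤ c * 2 ^ (j0 + 2) := by
      calc -(n * cs S (j0+2)) ≤ |n * cs S (j0+2)| := neg_le_abs _
        _ = |cs S (j0+2)| * |(n:ℝ)| := by rw [abs_mul, mul_comm]
        _ ≤ _ := mul_le_mul (hg.1 (j0+2) (by omega)) hn1 (abs_nonneg _) hc0
    have hSn : cs S j0 * y ≤ c * 2 ^ j0 + c * 2 ^ (j0 + 2) + a * 2 ^ j0 + S n := by
      have := (abs_le.mp hr).1
      linarith
    have hn2 : 1 + (n:ℝ)^2 ≤ 1 + 4 ^ (j0 + 2) := by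
      have h3 : (n:ℝ)^2 ≤ (2 ^ (j0+2))^2 := by
        rw [← sq_abs]; gcongr
      have h4 : ((2:ℝ) ^ (j0+2))^2 = 4 ^ (j0+2) := by
        rw [← pow_mul, mul_comm, pow_mul]; norm_num
      linarith
    calc Real.exp (sinf S j0 * y) * ‖Ep (sf S j0) (Mf S j0) (mf S c j0) (z + n)‖ * (1 + (n:ℝ)^2)
        ≤ Real.exp (cs S j0 * y) * Real.exp (a * |z.im|) * (1 + (n:ℝ)^2) := by gcongr
      _ ≤ Real.exp (c * 2 ^ j0 + c * 2 ^ (j0 + 2) + a * 2 ^ j0 + S n) * Real.exp (a * |z.im|)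
          * (1 + 4 ^ (j0+2)) := by gcongr
      _ = _ := by rw [CC, Real.exp_add _ (S n)]; ring
  · -- dyadic range
    have hy1 : 1 ≤ |y| := le_trans (one_le_pow₀ (by norm_num)) hyj.le
    obtain ⟨i, hi1, hi2⟩ := exists_nat_pow_near hy1 (by norm_num : (1:ℝ) < 2)
    have hij : j0 ≤ i := by
      by_contra hcon
      push Not at hcon
      have : (2:ℝ) ^ (i+1) ≤ 2 ^ j0 := pow_le_pow_right₀ (by norm_num) (by omega)
      linarith
    have h1 := hP2 i (z + n) (by rw [hre]; exact hi1) (by rw [hre]; exact hi2.le)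
    rw [hre, him] at h1
    have h2 : Real.exp (sinf S j0 * y) * ‖Ep (sf S j0) (Mf S j0) (mf S c j0) (z + n)‖ ≤
        Real.exp (cs S (i+1) * y - ((mf S c j0 i : ℝ) - Mf S j0 i)) * Real.exp (a * |z.im|) := by
      calc _ ≤ Real.exp (sinf S j0 * y) * Real.exp (y * (∑' j, sf S j0 (i + 1 + j))
            - ((mf S c j0 i : ℝ) - Mf S j0 i) +
            6 * (∑' j, (mf S c j0 j : ℝ) / 2 ^ j) * |z.im|) := by gcongr
        _ = Real.exp (cs S (i+1) * y - ((mf S c j0 i : ℝ) - Mf S j0 i))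
            * Real.exp (6 * (∑' j, (mf S c j0 j : ℝ) / 2 ^ j) * |z.im|) := by
          rw [← Real.exp_add, ← Real.exp_add, ← tail S j0 (i+1) (by omega) hss]
          congr 1; ring
        _ ≤ _ := by gcongr
    have hpow : (2:ℝ) ^ (i + 2) = 2 * 2 ^ (i + 1) := by ring
    have h2j : (2:ℝ) ≤ 2 ^ (i+1) := by
      have : (1:ℝ) ≤ 2 ^ i := one_le_pow₀ (by norm_num)
      rw [pow_succ]; linarith
    have hn1 : |(n:ℝ)| ≤ 2 ^ (i + 2) := by rw [hpow]; linarith
    have hr := le_cr S (i + 2) n hn1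
    have hmi : (mf S c j0 i : ℝ) - Mf S j0 i ≥ 2 * cr S (i+2) + 2 * c + 2 * i + 6 := by
      have h5 := Nat.le_ceil (2 * cr S (i+2))
      simp only [mf, Mf, hij, if_true]
      push_cast
      linarith
    have hst := cs_step S (i+1)
    have hb1 : cs S (i+1) * y - n * cs S (i+2) ≤ cr S (i+2) + 2 * c := by
      have e : cs S (i+1) * y - n * cs S (i+2) =
          (cs S (i+1) - cs S (i+2)) * y + cs S (i+2) * z.re := by rw [hy]; ring
      rw [e]
      have e1 : (cs S (i+1) - cs S (i+2)) * y ≤ cr S (i+2) := by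
        calc _ ≤ |(cs S (i+1) - cs S (i+2)) * y| := le_abs_self _
          _ = |y| * |cs S (i+1) - cs S (i+2)| := by rw [abs_mul, mul_comm]
          _ ≤ 2 ^ (i+1) * |cs S (i+1) - cs S (i+2)| := by gcongr
          _ ≤ _ := hst
      have e2 : cs S (i+2) * z.re ≤ 2 * c := by
        calc _ ≤ |cs S (i+2) * z.re| := le_abs_self _
          _ = |cs S (i+2)| * |z.re| := abs_mul _ _
          _ ≤ c * 2 := mul_le_mul (hg.1 (i+2) (by omega)) hz.le (abs_nonneg _) hc0
          _ = _ := by ring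
      linarith
    have hexp2 : cs S (i+1) * y - ((mf S c j0 i : ℝ) - Mf S j0 i) ≤ S n - (2 * i + 6) := by
      have := (abs_le.mp hr).1
      linarith
    have hn2 : 1 + (n:ℝ)^2 ≤ Real.exp (2 * i + 6) := by
      have h3 : (n:ℝ)^2 ≤ (2 ^ (i+2))^2 := by
        rw [← sq_abs]; gcongr
      have h4 : 1 + ((2:ℝ) ^ (i+2))^2 ≤ (2 ^ (i+3))^2 := by
        have : (1:ℝ) ≤ 2 ^ i := one_le_pow₀ (by norm_num)
        rw [pow_add, pow_add]; nlinarith
      have h5 : ((2:ℝ) ^ (i+3))^2 ≤ Real.exp (2 * i + 6) := by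
        have h6 : (2:ℝ) ≤ Real.exp 1 := by
          have := Real.add_one_le_exp (1:ℝ); linarith
        calc ((2:ℝ) ^ (i+3))^2 ≤ ((Real.exp 1) ^ (i+3))^2 := by gcongr
          _ = Real.exp (2 * i + 6) := by
            rw [← pow_mul, ← Real.exp_nat_mul]; congr 1; push_cast; ring
      linarith
    have hCC : 1 ≤ CC a c j0 := by
      rw [CC]
      have e1 : (1:ℝ) ≤ 1 + 4 ^ (j0 + 2) := by
        have : (0:ℝ) ≤ 4 ^ (j0+2) := by positivity
        linarith
      have e2 : 1 ≤ Real.exp (c * 2 ^ j0 + c * 2 ^ (j0 + 2) + a * 2 ^ j0) := by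
        rw [← Real.exp_zero]
        apply Real.exp_le_exp.mpr
        positivity
      nlinarith
    calc Real.exp (sinf S j0 * y) * ‖Ep (sf S j0) (Mf S j0) (mf S c j0) (z + n)‖ * (1 + (n:ℝ)^2)
        ≤ (Real.exp (cs S (i+1) * y - ((mf S c j0 i : ℝ) - Mf S j0 i)) * Real.exp (a * |z.im|))
            * (1 + (n:ℝ)^2) := by gcongr
      _ ≤ (Real.exp (S n - (2 * i + 6)) * Real.exp (a * |z.im|)) * Real.exp (2 * i + 6) := by
          gcongr
      _ = 1 * Real.exp (a * |z.im|) * Real.exp (S n) := by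
          rw [Real.exp_sub]; field_simp
      _ ≤ CC a c j0 * Real.exp (a * |z.im|) * Real.exp (S n) := by gcongr

/-! ### measurability -/

section Meas

variable {X : Type u} [MeasurableSpace X]

lemma meas_zpow (τ : Equiv.Perm X) (h1 : Measurable τ) (h2 : Measurable τ.symm) (k : ℤ) :
    Measurable (⇑(τ ^ k)) := by
  induction k using Int.induction_on with
  | zero => simpa using measurable_id
  | succ k ih =>
    rw [zpow_add_one]
    exact ih.comp h1
  | pred k ih =>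
    rw [zpow_sub_one]
    exact ih.comp h2

lemma meas_bsum (τ : Equiv.Perm X) (h1 : Measurable τ) (h2 : Measurable τ.symm) (φ : X → ℝ)
    (hφ : Measurable φ) (n : ℤ) : Measurable (fun t => bsum φ τ n t) := by
  unfold bsum
  by_cases h : 0 ≤ n
  · simp only [h, if_true]
    exact Finset.measurable_fun_sum _ (fun j _ => hφ.comp (meas_zpow τ h1 h2 _))
  · simp only [h, if_false]
    exact (Finset.measurable_fun_sum _ (fun j _ => hφ.comp (meas_zpow τ h1 h2 _))).neg

variable {S : X → ℤ → ℝ} (hS : ∀ n, Measurable fun t => S t n)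

include hS

lemma meas_cs (i : ℕ) : Measurable fun t => cs (S t) i := (hS _).div_const _

lemma meas_cr (i : ℕ) : Measurable fun t => cr (S t) i := by
  have : (fun t => cr (S t) i) = (Finset.Icc (-(2:ℤ)^i) (2^i)).sup' (icc_ne i)
      (fun n t => |S t n - n * cs (S t) i|) := by
    ext t
    rw [cr, Finset.sup'_apply]
  rw [this]
  apply Finset.measurable_sup'
  intro n _
  exact ((hS n).sub ((meas_cs hS i).const_mul _)).abs

lemma meas_Mf (j0 j : ℕ) : Measurable fun t => Mf (S t) j0 j := by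
  unfold Mf
  by_cases h : j0 ≤ j
  · simp only [h, if_true]
    exact Nat.measurable_ceil.comp ((meas_cr hS _).const_mul _)
  · simp only [h, if_false]; exact measurable_const

lemma meas_mf (c j0 j : ℕ) : Measurable fun t => mf (S t) c j0 j := by
  unfold mf
  by_cases h : j0 ≤ j
  · simp only [h, if_true]
    have h1 : Measurable fun t => ⌈2 * cr (S t) (j+1)⌉₊ :=
      Nat.measurable_ceil.comp ((meas_cr hS _).const_mul _)
    have h2 : Measurable fun t => ⌈2 * cr (S t) (j+2)⌉₊ :=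
      Nat.measurable_ceil.comp ((meas_cr hS _).const_mul _)
    exact h1.add (((h2.add measurable_const).add measurable_const).add measurable_const)
  · simp only [h, if_false]; exact measurable_const

lemma meas_sf (j0 j : ℕ) : Measurable fun t => sf (S t) j0 j := by
  unfold sf
  by_cases h : j0 ≤ j
  · simp only [h, if_true]
    exact (meas_cs hS _).sub (meas_cs hS _)
  · simp only [h, if_false]; exact measurable_const

lemma meas_good (a : ℝ) (c j0 : ℕ) : MeasurableSet {t | good (S t) a c j0} := by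
  have : {t | good (S t) a c j0} = (⋂ i, {t | j0 ≤ i → |cs (S t) i| ≤ c}) ∩
      ⋂ n, {t | ∑ j ∈ Finset.range n, (mf (S t) c j0 j : ℝ) / 2 ^ j ≤ a / 6} := by
    ext t
    simp [good]
  rw [this]
  refine MeasurableSet.inter (MeasurableSet.iInter fun i => ?_) (MeasurableSet.iInter fun n => ?_)
  · by_cases h : j0 ≤ i
    · simp only [h, true_imp_iff]
      exact measurableSet_le (meas_cs hS i).abs measurable_const
    · simp [h]
  · refine measurableSet_le (Finset.measurable_fun_sum _ fun j _ => ?_) measurable_const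
    exact ((measurable_from_nat (f := fun k : ℕ => (k:ℝ))).comp (meas_mf hS c j0 j)).div_const _

end Meas

end T47

open T47 in
/-- Module T. -/
theorem modT (hP : ModP) (hPM : ModPM.{u}) : ModT.{u} := by
  intro X _ μ τ hτ hτs φ hφ a ha G hG hGt
  set S : X → ℤ → ℝ := fun t n => bsum φ τ n t with hS
  have hSm : ∀ n, Measurable fun t => S t n := fun n => meas_bsum τ hτ hτs φ hφ n
  -- choice of the good set
  have hcov : G ⊆ ⋃ p : ℕ × ℕ, G ∩ {t | good (S t) a p.1 p.2} := by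
    intro t ht
    obtain ⟨c, j0, h⟩ := exists_good (S t) a ha (hGt t ht)
    exact mem_iUnion.mpr ⟨(c, j0), ht, h⟩
  have hex : ∃ p : ℕ × ℕ, μ (G ∩ {t | good (S t) a p.1 p.2}) ≠ 0 := by
    by_contra hcon
    push Not at hcon
    apply hG
    exact measure_mono_null hcov (measure_iUnion_null hcon)
  obtain ⟨⟨c, j0⟩, hμ⟩ := hex
  set G₁ : Set X := {t | good (S t) a c j0} with hG1
  have hG1m : MeasurableSet G₁ := meas_good hSm a c j0
  classical
  -- the parameters, zero outside `G₁`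
  set σ : X → ℕ → ℝ := fun s j => G₁.indicator (fun s => sf (S s) j0 j) s with hσ
  set M : X → ℕ → ℕ := fun s j => G₁.indicator (fun s => Mf (S s) j0 j) s with hM
  set m : X → ℕ → ℕ := fun s j => G₁.indicator (fun s => mf (S s) c j0 j) s with hm
  have hσm : ∀ j, Measurable fun s => σ s j := fun j => (meas_sf hSm j0 j).indicator hG1m
  have hMm : ∀ j, Measurable fun s => M s j := fun j => (meas_Mf hSm j0 j).indicator hG1m
  have hmm : ∀ j, Measurable fun s => m s j := fun j => (meas_mf hSm c j0 j).indicator hG1m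
  have hin : ∀ s ∈ G₁, σ s = sf (S s) j0 ∧ M s = Mf (S s) j0 ∧ m s = mf (S s) c j0 := by
    intro s hs
    refine ⟨?_, ?_, ?_⟩ <;> ext j <;> simp [hσ, hM, hm, hs]
  have hout : ∀ s ∉ G₁, σ s = (fun _ => 0) ∧ M s = (fun _ => 0) ∧ m s = (fun _ => 0) := by
    intro s hs
    refine ⟨?_, ?_, ?_⟩ <;> ext j <;> simp [hσ, hM, hm, hs]
  have hσM : ∀ s j, 2 ^ (j + 1) * |σ s j| ≤ M s j := by
    intro s j
    by_cases hs : s ∈ G₁
    · obtain ⟨e1, e2, -⟩ := hin s hs
      rw [e1, e2]; exact sf_le _ _ _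
    · obtain ⟨e1, e2, -⟩ := hout s hs
      rw [e1, e2]; simp
  have hMm' : ∀ s j, M s j ≤ m s j := by
    intro s j
    by_cases hs : s ∈ G₁
    · obtain ⟨-, e1, e2⟩ := hin s hs
      rw [e1, e2]; exact Mf_le _ _ _ _
    · obtain ⟨-, e1, e2⟩ := hout s hs
      rw [e1, e2]
  have hsum : ∀ s, Summable fun j => (m s j : ℝ) / 2 ^ j := by
    intro s
    by_cases hs : s ∈ G₁
    · obtain ⟨-, -, e2⟩ := hin s hs
      rw [e2]; exact good.summ hs
    · obtain ⟨-, -, e2⟩ := hout s hs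
      rw [e2]; simp
  have hEpm := hPM σ M m hσm hMm hmm hσM hMm' hsum
  have hσs : ∀ s, Summable (σ s) := fun s => (hP (σ s) (M s) (m s) (hσM s) (hMm' s) (hsum s)).2.2.1
  set L : X → ℝ := fun s => G₁.indicator (fun s => cs (S s) j0) s - ∑' j, σ s j with hL
  have hLm : Measurable L := by
    refine ((meas_cs hSm j0).indicator hG1m).sub ?_
    refine measurable_of_tendsto_metrizable (f := fun n s => ∑ j ∈ Finset.range n, σ s j)
      (fun n => Finset.measurable_fun_sum _ fun j _ => hσm j) ?_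
    rw [tendsto_pi_nhds]
    intro s
    exact (hσs s).hasSum.tendsto_sum_nat
  have hLin : ∀ s ∈ G₁, L s = sinf (S s) j0 := by
    intro s hs
    obtain ⟨e1, -, -⟩ := hin s hs
    simp only [hL, e1, indicator_of_mem hs, sinf]
  refine ⟨G₁, fun s z => Complex.exp (L s * z) * Ep (σ s) (M s) (m s) z, CC a c j0, hG1m, hμ,
    fun z => ?_, fun s => ?_, fun s _ => ?_, fun s hs n z hz => ?_⟩
  · refine Measurable.mul ?_ (hEpm z)
    exact Complex.measurable_exp.comp ((Complex.measurable_ofReal.comp hLm).mul_const z)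
  · refine Differentiable.mul ?_ (hP (σ s) (M s) (m s) (hσM s) (hMm' s) (hsum s)).1
    exact Complex.differentiable_exp.comp (differentiable_id.const_mul _)
  · dsimp only
    rw [(hP (σ s) (M s) (m s) (hσM s) (hMm' s) (hsum s)).2.1]
    simp
  · obtain ⟨e1, e2, e3⟩ := hin s hs
    dsimp only
    rw [hLin s hs, e1, e2, e3]
    exact est hP (S s) a ha c j0 hs n z hz

end Pool.Agent.Bishop
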