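import Pool.Agent.Lib_helper15.Basic

/-!
# Bishop operators: definitions and module statements

Each `X_Stmt : Prop` is the exact statement of a module. A module file proves `theorem X : X_Stmt`
(or takes statements of earlier modules as hypotheses).
-/

set_option autoImplicit false

open MeasureTheory Metric Set

namespace Pool.Agent.Bishop

/-- the representative of `x` modulo `1` in `(0,1]` -/
noncomputable def fr (x : ℝ) : ℝ := 1 - Int.fract (-x)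

/-- the logarithm of the normalised weight `e * x` on `(0,1]` -/
noncomputable def vv (x : ℝ) : ℝ := 1 + Real.log (fr x)

/-- `om q y = ∑_{l<q} vv ((y+l)/q)` for `0 < y ≤ 1`, extended with period one -/
noncomputable def om (q : ℕ) (y : ℝ) : ℝ :=
  ∑ l ∈ Finset.range q, (1 + Real.log ((fr y + l) / q))

/-- the primitive of `om q` -/
noncomputable def Ph (q : ℕ) (y : ℝ) : ℝ := ∫ t in (0 : ℝ)..y, om q t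

/-- signed distance of `q β` to the nearest integer -/
noncomputable def dl (β : ℝ) (q : ℕ) : ℝ := q * β - round (q * β)

/-- denominators of best approximations -/
def Best (β : ℝ) (q : ℕ) : Prop := 1 ≤ q ∧ ∀ q', 1 ≤ q' → q' < q → |dl β q| < |dl β q'|

/-! ### Module M1: best denominators -/

def M1_Stmt : Prop :=
  (∀ (β : ℚ) (q : ℕ), Best β q → q ≤ β.den) ∧
  (∀ β : ℚ, Best β β.den ∧ dl β β.den = 0) ∧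
  (∀ (β : ℚ) (q : ℕ), 1 ≤ q → q < β.den → dl β q ≠ 0) ∧
  (∀ (β : ℚ) (q : ℕ), Best β q → Nat.Coprime q (round ((q : ℝ) * β)).natAbs) ∧
  (∀ (β : ℚ) (n : ℕ), 1 ≤ n → n < β.den → ∃ q, Best β q ∧ q ≤ n ∧
    (∀ q', Best β q' → q' ≤ n → q' ≤ q) ∧ ((n : ℝ) + 1) * |dl β q| ≤ 1) ∧
  (∀ (β : ℚ) (q q' : ℕ), Best β q → Best β q' → q < q' → 1 ≤ 2 * (q' : ℝ) * |dl β q|) ∧
  (∀ (β : ℚ) (M : ℕ) (s : Finset ℕ), (∀ q ∈ s, Best β q ∧ M ≤ q ∧ q < 2 * M) → s.card ≤ 2)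

/-! ### Module M2: the functions `om` and `Ph` -/

def M2_Stmt : Prop :=
  (∀ (q : ℕ) (y : ℝ), om q (y + 1) = om q y) ∧
  (∀ q : ℕ, Measurable (om q)) ∧
  (∀ q : ℕ, 1 ≤ q → ∀ y z : ℝ, 0 < y → y ≤ z → z ≤ 1 → om q y ≤ om q z) ∧
  (∀ q : ℕ, 1 ≤ q → ∀ y : ℝ, Real.log (fr y) - Real.log q ≤ om q y ∧ om q y ≤ 1 + Real.log q) ∧
  (∀ q : ℕ, 1 ≤ q → ∀ a b : ℝ, IntervalIntegrable (om q) volume a b) ∧
  (∀ q : ℕ, 1 ≤ q → ∀ y : ℝ, Ph q (y + 1) = Ph q y) ∧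
  (∀ q : ℕ, 1 ≤ q → ∀ y : ℝ, |Ph q y| ≤ 1 + Real.log q) ∧
  (∀ q : ℕ, 1 ≤ q → Continuous (Ph q)) ∧
  (∀ q : ℕ, 1 ≤ q → ∀ y : ℝ, 0 < y → y < 1 → HasDerivAt (Ph q) (om q y) y) ∧
  (∀ q : ℕ, 1 ≤ q → ∀ y : ℝ, 0 < y → y < 1 → HasDerivAt (om q)
    (∑ l ∈ Finset.range q, (y + l)⁻¹) y ∧ (∑ l ∈ Finset.range q, (y + l)⁻¹) ≤
      y⁻¹ + 1 + Real.log q) ∧
  -- small intervals
  (∀ q : ℕ, 1 ≤ q → ∀ a b : ℝ, a < b → b ≤ a + 1 →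
    |Ph q b - Ph q a| ≤ (b - a) * (2 + Real.log q + Real.log (1 / (b - a))))

/-! ### Module M3: sums over blocks -/

/-- Birkhoff sums of `vv` -/
noncomputable def Bs (β : ℝ) (n : ℕ) (x : ℝ) : ℝ := ∑ l ∈ Finset.range n, vv (x + l * β)

/-- Comparison of the Birkhoff sum over `b` blocks of length `q` with the increment of the
resonance function. `A` bounds: either `log (1 / (q |δ|))`, or there is no crossing and all the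
fractional parts stay in `[exp (-A), 1]`. -/
def M3_Stmt : Prop := ∀ (β : ℝ) (q b : ℕ), 1 ≤ q → 1 ≤ b → dl β q ≠ 0 →
  Nat.Coprime q (round ((q : ℝ) * β)).natAbs → (b * q : ℕ) * |dl β q| ≤ 1 →
  ∀ (x A : ℝ), 0 ≤ A →
  (Real.log (1 / (q * |dl β q|)) ≤ A ∨
    (Real.exp (-A) + (b * q : ℕ) * |dl β q| ≤ fr (q * x) ∧
      fr (q * x) ≤ 1 - (b * q : ℕ) * |dl β q|)) →
  Bs β (b * q) x - (Ph q (q * (x + (b * q : ℕ) * β)) - Ph q (q * x)) / (q * dl β q)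
    ≤ 20 * (1 + Real.log q + A) ∧
  ((∀ l < b * q, Real.exp (-A) ≤ fr (x + l * β)) →
    -(20 * (1 + Real.log q + A)) ≤
    Bs β (b * q) x - (Ph q (q * (x + (b * q : ℕ) * β)) - Ph q (q * x)) / (q * dl β q))

/-! ### Module M4: growth of the corrected Birkhoff sums -/

/-- the resonance function of the denominator `q` -/
noncomputable def kk (β : ℝ) (q : ℕ) (x : ℝ) : ℝ := Ph q (q * x) / (q * dl β q)

open Classical in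
/-- the denominators in use -/
noncomputable def JJ (β : ℚ) (q₀ : ℕ) : Finset ℕ :=
  (Finset.range β.den).filter fun q => q₀ ≤ q ∧ Best β q

/-- corrected Birkhoff sums -/
noncomputable def Ls (β : ℚ) (q₀ : ℕ) (n : ℕ) (x : ℝ) : ℝ :=
  Bs β n x - n * (om β.den (β.den * x) / β.den) -
    ∑ q ∈ JJ β q₀, (kk β q (x + n * β) - kk β q x)

/-- the good set -/
def EE (β : ℚ) (q₀ : ℕ) (c₁ : ℝ) : Set ℝ :=
  {z | (∀ l : ℕ, l < β.den → c₁ / ((l : ℝ) + 1) ^ 2 ≤ fr (z + l * β)) ∧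
    ∀ q : ℕ, Best β q → q₀ ≤ q → c₁ / q ≤ fr (q * z) ∧ fr (q * z) ≤ 1 - c₁ / q}

def M4_Stmt : Prop := ∀ (q₀ : ℕ) (c c₁ : ℝ), 1 ≤ q₀ → 0 < c → 0 < c₁ → c₁ ≤ 1 / 4 →
  ∃ C : ℝ, 0 ≤ C ∧ ∀ β : ℚ, (∀ q : ℕ, 1 ≤ q → q < q₀ → c ≤ |dl β q|) →
    ∀ (n : ℕ) (x : ℝ),
      (x + n * β ∈ EE β q₀ c₁ → Ls β q₀ n x ≤ C * (1 + Real.log (n + 2) ^ 2)) ∧
      (x ∈ EE β q₀ c₁ → -(C * (1 + Real.log (n + 2) ^ 2)) ≤ Ls β q₀ n x)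

/-! ### Module M5: the good set is large -/

def M5_Stmt : Prop := ∃ c₁ : ℝ, 0 < c₁ ∧ c₁ ≤ 1 / 4 ∧ ∀ (q₀ : ℕ) (β : ℚ), 1 ≤ q₀ →
  MeasurableSet (EE β q₀ c₁) ∧ (∀ z : ℝ, z + 1 ∈ EE β q₀ c₁ ↔ z ∈ EE β q₀ c₁) ∧
  ENNReal.ofReal (7 / 8) ≤ volume (EE β q₀ c₁ ∩ Ico 0 1)

/-! ### Module M6: a Gevrey bump -/

/-- `e^{2πiθ}` -/
noncomputable def ee (θ : ℝ) : ℂ := Complex.exp (2 * Real.pi * Complex.I * θ)

/-- There is a smooth bump of integral one supported in `[-1/100,1/100]` such that its products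
with `1/(e^{2πiθ} - μ)` have Fourier coefficients `O(exp(-|n|^{1/3}))`, uniformly in `μ` outside of
the disc of radius `1/10` around `1`. -/
def M6_Stmt : Prop := ∃ (ψ : ℝ → ℝ) (C : ℝ), Continuous ψ ∧ (∀ θ, 0 ≤ ψ θ) ∧
  (∀ θ, 1 / 100 ≤ |θ| → ψ θ = 0) ∧ (∫ θ in (-(1 / 100) : ℝ)..(1 / 100), ψ θ) = 1 ∧ 0 ≤ C ∧
  (∀ n : ℤ, ‖∫ θ in (-(1 / 100) : ℝ)..(1 / 100), (ψ θ : ℂ) * ee (-(n * θ))‖ ≤
    C * Real.exp (-(|(n : ℝ)| ^ (1 / 3 : ℝ)))) ∧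
  (∀ (μ : ℂ), μ ∉ ball (1 : ℂ) (1 / 10) → ∀ n : ℤ,
    ‖∫ θ in (-(1 / 100) : ℝ)..(1 / 100), (ψ θ : ℂ) / (ee θ - μ) * ee (-(n * θ))‖ ≤
    C * Real.exp (-(|(n : ℝ)| ^ (1 / 3 : ℝ))))

/-! ### Local resolvents -/

/-- `F` is a bounded local resolvent of `f` for the weighted rotation
`h ↦ e^{v} h(· + β)`, off the closed disc of radius `s` around `z`. -/
structure Loc (β : ℝ) (v : ℝ → ℝ) (z : ℂ) (s M : ℝ) (f : ℝ → ℂ) (F : ℂ → ℝ → ℂ) : Prop where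
  fmeas : Measurable f
  fper : ∀ x, f (x + 1) = f x
  fbd : ∀ x, ‖f x‖ ≤ M
  Fmeas : ∀ w, Measurable (F w)
  Fper : ∀ w x, F w (x + 1) = F w x
  Fbd : ∀ w, w ∉ closedBall z s → ∀ x, ‖F w x‖ ≤ M
  Fdiff : ∀ x, DifferentiableOn ℂ (fun w => F w x) (closedBall z s)ᶜ
  eqn : ∀ w, w ∉ closedBall z s → ∀ x, (Real.exp (v x) : ℂ) * F w (x + β) - w * F w x = f x

/-! ### Module M7: functional calculus for moderate growth -/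

/-- From growth to local resolvents. The weight `v` comes with a cocycle `L`. -/
def M7_Stmt : Prop := ∀ C : ℝ, 0 ≤ C → ∃ (r : ℕ) (M : ℝ), 1 ≤ r ∧ 0 < M ∧
  ∀ (β : ℝ) (v : ℝ → ℝ) (L : ℤ → ℝ → ℝ) (E : Set ℝ), MeasurableSet E →
  (∀ x, x + 1 ∈ E ↔ x ∈ E) → (∀ n, Measurable (L n)) → (∀ n x, L n (x + 1) = L n x) →
  (∀ x, L 0 x = 0) → (∀ n x, L (n + 1) x = v x + L n (x + β)) →
  (∀ (n : ℤ) (x : ℝ), x + n * β ∈ E → L n x ≤ C * (1 + Real.log (|(n : ℝ)| + 2) ^ 2)) →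
  ∃ (f : ℕ → ℝ → ℂ) (F : ℕ → ℂ → ℝ → ℂ),
    (∀ i, i < r → Loc β v (ee (i / r)) (1 / 10) M (f i) (F i)) ∧
    ∀ x, ‖(1 / (r : ℂ)) * ∑ i ∈ Finset.range r, f i x - E.indicator 1 x‖ ≤ 1 / 16

/-! ### Module M8, M9: the resonance step -/

/-- binomial sums -/
noncomputable def PP (N : ℕ) (u δ : ℝ) (Ψ : ℂ → ℂ) : ℂ :=
  ∑ j ∈ Finset.range (2 * N + 1), ((2 * N).choose j : ℂ) / 4 ^ N *
    (ee (((j : ℝ) - N) * u) * Ψ ((((j : ℝ) - N) * δ : ℝ) : ℂ))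

/-- M9: the transfer inequality for binomial sums. -/
def M9_Stmt : Prop := ∃ C : ℝ, 0 ≤ C ∧ ∀ (N : ℕ) (u δ R M : ℝ) (Ψ : ℂ → ℂ), 1 ≤ N → 0 < R →
  N * |δ| ≤ R / 16 → DifferentiableOn ℂ Ψ (ball 0 R) → (∀ z ∈ ball (0 : ℂ) R, ‖Ψ z‖ ≤ M) →
  (|u| ≤ 1 / 4 → ‖PP N u δ Ψ - (Real.cos (Real.pi * u) ^ (2 * N) : ℝ) * Ψ 0‖ ≤
    Real.cos (Real.pi * u) ^ (2 * N) * (C * (N * |δ| / R) * M)) ∧
  (1 / 4 ≤ |u| → |u| ≤ 1 / 2 → ‖PP N u δ Ψ‖ ≤ C * (3 / 4) ^ N * M)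

/-- M8: bumps under the graph of `exp (Ph q y / (q δ))`, where `η = q^{-1/8}`. For a base point
`s` the bump has centre `s + arctan t / π` with `t = om q s / (q δ) / (2 π N)`. -/
def M8_Stmt : Prop := ∃ q₀ : ℕ, ∀ q : ℕ, q₀ ≤ q → ∀ δ : ℝ, δ ≠ 0 → |δ| ≤ 1 / q →
  ∀ N : ℕ, (N : ℝ) * |δ| ≥ (q : ℝ) ^ (-(1 / 2) : ℝ) → ∀ s y t η : ℝ, η = (q : ℝ) ^ (-(1 / 8) : ℝ) →
  s ∈ Icc η (1 - η) → y ∈ Icc (0 : ℝ) 1 → t = om q s / (q * δ) / (2 * Real.pi * N) →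
  (|y - s| ≤ η / 2 →
    Real.exp (-((1 + η) * Real.pi ^ 2 * N * (y - s) ^ 2)) ≤
      Real.exp (Ph q s / (q * δ) - Ph q y / (q * δ)) * (1 + t ^ 2) ^ N *
        Real.cos (Real.pi * (y - s) - Real.arctan t) ^ (2 * N) ∧
    Real.exp (Ph q s / (q * δ) - Ph q y / (q * δ)) * (1 + t ^ 2) ^ N *
        Real.cos (Real.pi * (y - s) - Real.arctan t) ^ (2 * N) ≤
      Real.exp (-((1 - η) * Real.pi ^ 2 * N * (y - s) ^ 2))) ∧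
  (η / 2 ≤ |y - s| →
    Real.exp (Ph q s / (q * δ) - Ph q y / (q * δ)) * (1 + t ^ 2) ^ N *
        Real.cos (Real.pi * (y - s) - Real.arctan t) ^ (2 * N) ≤
      Real.exp (-(N * η ^ 2 / 4))) ∧
  Real.exp (Ph q s / (q * δ) - Ph q y / (q * δ)) * (1 + t ^ 2) ^ N ≤ Real.exp (N / 100)

/-- The resonance step: a trigonometric polynomial `∑ g l e^{2πily}`, `|l| ≤ N`, which follows
`exp (Ph q y / (q δ))`, with a transfer inequality. -/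
def RS_Stmt : Prop := ∃ q₀ : ℕ, 1 ≤ q₀ ∧ ∀ q : ℕ, q₀ ≤ q → ∀ δ : ℝ, δ ≠ 0 → |δ| ≤ 1 / q →
  ∃ (N : ℕ) (g : ℤ → ℂ) (m : ℝ → ℝ), (N : ℝ) * |δ| ≤ (q : ℝ) ^ (-(1 / 4) : ℝ) / 16 ∧
    (∀ y, ((m y : ℝ) : ℂ) = Real.exp (-(Ph q y / (q * δ))) *
      ∑ l ∈ Finset.Icc (-(N : ℤ)) N, g l * ee (l * y)) ∧
    (∀ y, 0 ≤ m y) ∧
    (∀ y, 2 * (q : ℝ) ^ (-(1 / 8) : ℝ) ≤ fr y → fr y ≤ 1 - 2 * (q : ℝ) ^ (-(1 / 8) : ℝ) →
      1 - (q : ℝ) ^ (-(1 / 16) : ℝ) ≤ m y) ∧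
    ∀ (y M : ℝ) (Ψ : ℂ → ℂ), DifferentiableOn ℂ Ψ (ball 0 ((q : ℝ) ^ (-(1 / 4) : ℝ))) →
      (∀ z ∈ ball (0 : ℂ) ((q : ℝ) ^ (-(1 / 4) : ℝ)), ‖Ψ z‖ ≤ M) →
      ‖(Real.exp (-(Ph q y / (q * δ))) : ℂ) *
        ∑ l ∈ Finset.Icc (-(N : ℤ)) N, g l * ee (l * y) * Ψ ((l * δ : ℝ) : ℂ)‖ ≤
      (1 + (q : ℝ) ^ (-(1 / 16) : ℝ)) * M

/-! ### Module M10: the finite level theorem -/

/-- the weighted rotation of the finite level -/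
noncomputable def Sb (β : ℚ) (h : ℝ → ℂ) (x : ℝ) : ℂ :=
  (Real.exp (vv x - om β.den (β.den * x) / β.den) : ℂ) * h (x + β)

/-- FL: uniform approximate local spectral vectors for the rational rotations close to `α`. -/
def FL_Stmt : Prop := ∀ α : ℝ, Irrational α → ∃ (r : ℕ) (M c₀ ε₀ : ℝ), 1 ≤ r ∧ 0 < c₀ ∧ 0 < ε₀ ∧
  ∀ β : ℚ, |(β : ℝ) - α| < ε₀ → ∃ (i : ℕ) (f : ℝ → ℂ), i < r ∧ Measurable f ∧
    (∀ x, f (x + 1) = f x) ∧ (∀ x, ‖f x‖ ≤ M) ∧ c₀ ≤ ‖∫ x in (0 : ℝ)..1, f x‖ ∧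
    ∀ (k : ℕ) (x : ℝ), ‖((fun (h : ℝ → ℂ) (x : ℝ) => Sb β h x - ee (i / r) * h x)^[k] f) x‖ ≤
      M * (1 / 4) ^ k

/-! ### Module M11: the limit -/

/-- Lebesgue measure on `[0,1)` -/
noncomputable def mu : Measure ℝ := volume.restrict (Ico 0 1)

/-- `T` is the Bishop operator `h ↦ t h({t + α})` times `c`. -/
def IsBishop (p : ENNReal) [Fact (1 ≤ p)] (α : ℝ) (T : Lp ℂ p mu →L[ℂ] Lp ℂ p mu) : Prop :=
  ∀ h : Lp ℂ p mu, (T h : ℝ → ℂ) =ᵐ[mu] fun t => (t : ℂ) * (h : ℝ → ℂ) (Int.fract (t + α))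

/-- Bounded functions with small iterates of `e T - z`, for the formal Bishop operator. -/
def LIM_Stmt : Prop := ∀ α : ℝ, Irrational α → ∃ (z : ℂ) (M : ℝ) (g : ℕ → ℝ → ℂ), ‖z‖ = 1 ∧
  (∀ k, Measurable (g k)) ∧ (∀ k x, ‖g k x‖ ≤ M * (1 / 4) ^ k) ∧
  (∀ k, ∀ᵐ t ∂mu, (Real.exp 1 * t : ℝ) * g k (Int.fract (t + α)) - z * g k t = g (k + 1) t) ∧
  ¬ (g 0 =ᵐ[mu] 0)

/-! ### Module M12: the final theorem -/

def FINAL_Stmt : Prop := ∀ (p : ENNReal) [Fact (1 ≤ p)], p ≠ ⊤ → ∀ α : ℝ, Irrational α →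
  ∀ T : Lp ℂ p mu →L[ℂ] Lp ℂ p mu, IsBishop p α T →
    Pool.Agent.Lib_helper15.HasNontrivialHyperinvariantSubspace T

/-- rational angles (elementary) -/
def RAT_Stmt : Prop := ∀ (p : ENNReal) [Fact (1 ≤ p)], p ≠ ⊤ → ∀ α : ℚ,
  ∀ T : Lp ℂ p mu →L[ℂ] Lp ℂ p mu, IsBishop p α T →
    Pool.Agent.Lib_helper15.HasNontrivialHyperinvariantSubspace T

def EX_Stmt : Prop := ∀ (p : ENNReal) [Fact (1 ≤ p)] (α : ℝ),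
  ∃ T : Lp ℂ p mu →L[ℂ] Lp ℂ p mu, IsBishop p α T

end Pool.Agent.Bishop
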