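import Pool.Agent.Lib_helper47.Bishop.Step

/-!
# From local resolvents to bounds for the iterates of `S - z`
-/

set_option autoImplicit false

open MeasureTheory Metric Set

namespace Pool.Agent.Bishop

variable {β : ℝ} {v : ℝ → ℝ} {z : ℂ} {s M : ℝ} {f : ℝ → ℂ} {F : ℂ → ℝ → ℂ}

theorem Loc.contOn (h : Loc β v z s M f F) {r : ℝ} (hr : s < r) (x : ℝ) :
    ContinuousOn (fun w => F w x) (sphere z r) := by
  refine (h.Fdiff x).continuousOn.mono fun w hw => ?_
  rw [mem_sphere, dist_eq_norm] at hw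
  rw [mem_compl_iff, mem_closedBall, dist_eq_norm]
  linarith

theorem Loc.bound1 (h : Loc β v z s M f F) {w : ℂ} (hw : w ∉ closedBall z s) (y : ℝ) :
    ‖w - z‖ * ‖F w y‖ ≤ Real.exp (v y) * M + M + ‖z‖ * M := by
  have h1 := h.eqn w hw y
  have h2 : (w - z) * F w y = (Real.exp (v y) : ℂ) * F w (y + β) - f y - z * F w y := by
    linear_combination -h1
  rw [← norm_mul, h2]
  have h3 : ‖(Real.exp (v y) : ℂ) * F w (y + β)‖ ≤ Real.exp (v y) * M := by
    rw [norm_mul, Complex.norm_real, Real.norm_eq_abs, abs_of_pos (Real.exp_pos _)]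
    exact mul_le_mul_of_nonneg_left (h.Fbd w hw _) (Real.exp_pos _).le
  have h4 : ‖z * F w y‖ ≤ ‖z‖ * M := by
    rw [norm_mul]
    exact mul_le_mul_of_nonneg_left (h.Fbd w hw _) (norm_nonneg _)
  calc _ ≤ ‖(Real.exp (v y) : ℂ) * F w (y + β) - f y‖ + ‖z * F w y‖ := norm_sub_le _ _
    _ ≤ ‖(Real.exp (v y) : ℂ) * F w (y + β)‖ + ‖f y‖ + ‖z * F w y‖ := by
        gcongr; exact norm_sub_le _ _
    _ ≤ _ := by gcongr; exact h.fbd y

theorem Loc.integral_zero (h : Loc β v z s M f F) (hs0 : 0 ≤ s) (hs : s < 1 / 4) (x : ℝ) :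
    (∮ w in C(z, 1 / 4), F w x) = -(2 * Real.pi * Complex.I) * f x := by
  have hM : 0 ≤ M := (norm_nonneg _).trans (h.fbd 0)
  set Cy : ℝ → ℝ := fun y => Real.exp (v y) * M + M + ‖z‖ * M with hCy
  have hCy0 : ∀ y, 0 ≤ Cy y := fun y => by simp only [hCy]; positivity
  set C : ℝ := Real.exp (v x) * Cy (x + β) + ‖z‖ * Cy x with hC
  have hC0 : 0 ≤ C := by
    simp only [hC]
    have := hCy0 (x + β)
    have := hCy0 x
    positivity
  have key : ∀ R : ℝ, 1 / 4 ≤ R →
      ‖(∮ w in C(z, 1 / 4), F w x) + (2 * Real.pi * Complex.I) * f x‖ ≤ 2 * Real.pi * C * R⁻¹ := by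
    intro R hR
    have hR0 : 0 < R := by linarith
    have e1 : (∮ w in C(z, R), F w x) = ∮ w in C(z, 1 / 4), F w x := by
      refine Complex.circleIntegral_eq_of_differentiable_on_annulus_off_countable
        (by norm_num) hR countable_empty ?_ ?_
      · refine (h.Fdiff x).continuousOn.mono fun w hw => ?_
        have h2 := hw.2
        rw [mem_ball, dist_eq_norm] at h2
        rw [mem_compl_iff, mem_closedBall, dist_eq_norm]
        push Not at h2 ⊢
        linarith
      · intro w hw
        have h2 := hw.1.2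
        rw [mem_closedBall, dist_eq_norm] at h2
        push Not at h2
        have h3 : w ∈ (closedBall z s)ᶜ := by
          rw [mem_compl_iff, mem_closedBall, dist_eq_norm]
          push Not
          linarith
        exact (h.Fdiff x w h3).differentiableAt (isClosed_closedBall.isOpen_compl.mem_nhds h3)
    have e2 : (∮ w in C(z, R), (w - z)⁻¹ * f x) = (2 * Real.pi * Complex.I) * f x := by
      have := circleIntegral.integral_sub_center_inv z hR0.ne'
      rw [← this, ← smul_eq_mul, ← circleIntegral.integral_smul_const]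
      simp only [smul_eq_mul]
    have hci1 : CircleIntegrable (fun w => F w x) z R :=
      (h.contOn (by linarith) x).circleIntegrable hR0.le
    have hci2 : CircleIntegrable (fun w => (w - z)⁻¹ * f x) z R := by
      apply ContinuousOn.circleIntegrable hR0.le
      refine ContinuousOn.mul (ContinuousOn.inv₀ (by fun_prop) ?_) continuousOn_const
      intro w hw
      rw [mem_sphere, dist_eq_norm] at hw
      intro h0
      rw [h0, norm_zero] at hw
      linarith
    rw [← e1, ← e2, ← circleIntegral.integral_add hci1 hci2]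
    have hb : ∀ w ∈ sphere z R, ‖F w x + (w - z)⁻¹ * f x‖ ≤ C / R ^ 2 := by
      intro w hw
      rw [mem_sphere, dist_eq_norm] at hw
      have hw' : w ∉ closedBall z s := by
        rw [mem_closedBall, dist_eq_norm]
        push Not
        linarith
      have hwz : w - z ≠ 0 := by
        intro h0
        rw [h0, norm_zero] at hw
        linarith
      have b1 := h.bound1 hw' x
      have b2 := h.bound1 hw' (x + β)
      rw [hw] at b1 b2
      have h1 := h.eqn w hw' x
      have h2 : F w x + (w - z)⁻¹ * f x =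
          (w - z)⁻¹ * ((Real.exp (v x) : ℂ) * F w (x + β) - z * F w x) := by
        field_simp
        linear_combination -h1
      rw [h2, norm_mul, norm_inv, hw]
      have b1' : ‖F w x‖ ≤ Cy x / R := by
        rw [le_div_iff₀ hR0, mul_comm]; exact b1
      have b2' : ‖F w (x + β)‖ ≤ Cy (x + β) / R := by
        rw [le_div_iff₀ hR0, mul_comm]; exact b2
      have h3 : ‖(Real.exp (v x) : ℂ) * F w (x + β) - z * F w x‖ ≤ C / R := by
        refine (norm_sub_le _ _).trans ?_
        rw [norm_mul, norm_mul, Complex.norm_real, Real.norm_eq_abs, abs_of_pos (Real.exp_pos _)]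
        calc Real.exp (v x) * ‖F w (x + β)‖ + ‖z‖ * ‖F w x‖
            ≤ Real.exp (v x) * (Cy (x + β) / R) + ‖z‖ * (Cy x / R) := by
              gcongr
          _ = C / R := by rw [hC]; ring
      calc R⁻¹ * ‖(Real.exp (v x) : ℂ) * F w (x + β) - z * F w x‖ ≤ R⁻¹ * (C / R) := by gcongr
        _ = C / R ^ 2 := by field_simp
    refine (circleIntegral.norm_integral_le_of_norm_le_const hR0.le hb).trans (le_of_eq ?_)
    field_simp
  have hlim : Filter.Tendsto (fun R : ℝ => 2 * Real.pi * C * R⁻¹) Filter.atTop (nhds 0) := by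
    simpa using tendsto_inv_atTop_zero.const_mul (2 * Real.pi * C)
  have hle : ‖(∮ w in C(z, 1 / 4), F w x) + (2 * Real.pi * Complex.I) * f x‖ ≤ 0 := by
    refine ge_of_tendsto hlim ?_
    filter_upwards [Filter.eventually_ge_atTop (1 / 4 : ℝ)] with R hR using key R hR
  have := norm_le_zero_iff.mp hle
  linear_combination this

/-- the Cauchy integrals -/
noncomputable def GG (z : ℂ) (F : ℂ → ℝ → ℂ) (k : ℕ) (x : ℝ) : ℂ :=
  -(2 * Real.pi * Complex.I)⁻¹ * ∮ w in C(z, 1 / 4), (w - z) ^ k * F w x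

theorem Loc.GG_zero (h : Loc β v z s M f F) (hs0 : 0 ≤ s) (hs : s < 1 / 4) :
    GG z F 0 = f := by
  funext x
  simp only [GG, pow_zero, one_mul]
  rw [h.integral_zero hs0 hs x]
  have : (2 * Real.pi * Complex.I : ℂ) ≠ 0 := Complex.two_pi_I_ne_zero
  field_simp

theorem Loc.GG_succ (h : Loc β v z s M f F) (hs : s < 1 / 4) (k : ℕ) (x : ℝ) :
    (Real.exp (v x) : ℂ) * GG z F k (x + β) - z * GG z F k x = GG z F (k + 1) x := by
  have hci : ∀ (j : ℕ) (y : ℝ), CircleIntegrable (fun w => (w - z) ^ j * F w y) z (1 / 4) := by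
    intro j y
    apply ContinuousOn.circleIntegrable (by norm_num)
    exact ContinuousOn.mul (by fun_prop) (h.contOn (by linarith) y)
  have hci2 : CircleIntegrable (fun w => (w - z) ^ k * f x) z (1 / 4) := by
    apply ContinuousOn.circleIntegrable (by norm_num)
    fun_prop
  have e0 : (∮ w in C(z, 1 / 4), (w - z) ^ k * f x) = 0 := by
    have h1 : (∮ w in C(z, 1 / 4), (w - z) ^ (k : ℤ)) = 0 :=
      circleIntegral.integral_sub_zpow_of_ne (by omega) _ _ _
    have h2 : (∮ w in C(z, 1 / 4), (w - z) ^ k * f x) = (∮ w in C(z, 1 / 4), (w - z) ^ (k : ℤ)) •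
        f x := by
      rw [← circleIntegral.integral_smul_const]
      simp only [smul_eq_mul, zpow_natCast]
    rw [h2, h1, zero_smul]
  have e1 : (Real.exp (v x) : ℂ) * (∮ w in C(z, 1 / 4), (w - z) ^ k * F w (x + β)) =
      ∮ w in C(z, 1 / 4), (Real.exp (v x) : ℂ) * ((w - z) ^ k * F w (x + β)) := by
    rw [← smul_eq_mul, ← circleIntegral.integral_smul]
    simp only [smul_eq_mul]
  have e2 : (∮ w in C(z, 1 / 4), (Real.exp (v x) : ℂ) * ((w - z) ^ k * F w (x + β))) =
      ∮ w in C(z, 1 / 4), (((w - z) ^ (k + 1) * F w x) + z * ((w - z) ^ k * F w x)) +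
        (w - z) ^ k * f x := by
    refine circleIntegral.integral_congr (by norm_num) fun w hw => ?_
    rw [mem_sphere, dist_eq_norm] at hw
    have hw' : w ∉ closedBall z s := by
      rw [mem_closedBall, dist_eq_norm]
      push Not
      linarith
    have h1 := h.eqn w hw' x
    linear_combination (w - z) ^ k * h1
  have e3 : (∮ w in C(z, 1 / 4), z * ((w - z) ^ k * F w x)) =
      z * ∮ w in C(z, 1 / 4), (w - z) ^ k * F w x := by
    rw [← smul_eq_mul z (∮ w in C(z, 1 / 4), (w - z) ^ k * F w x), ← circleIntegral.integral_smul]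
    simp only [smul_eq_mul]
  have hci3 : CircleIntegrable (fun w => z * ((w - z) ^ k * F w x)) z (1 / 4) := by
    apply ContinuousOn.circleIntegrable (by norm_num)
    exact continuousOn_const.mul (ContinuousOn.mul (by fun_prop) (h.contOn (by linarith) x))
  have e4 : (∮ w in C(z, 1 / 4), (((w - z) ^ (k + 1) * F w x) + z * ((w - z) ^ k * F w x)) +
        (w - z) ^ k * f x) = (∮ w in C(z, 1 / 4), (((w - z) ^ (k + 1) * F w x) +
          z * ((w - z) ^ k * F w x))) + ∮ w in C(z, 1 / 4), (w - z) ^ k * f x :=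
    circleIntegral.integral_add ((hci (k + 1) x).add hci3) hci2
  rw [e4, circleIntegral.integral_add (hci (k + 1) x) hci3, e0, e3] at e2
  simp only [GG]
  rw [e2] at e1
  linear_combination (-(2 * Real.pi * Complex.I)⁻¹) * e1

theorem Loc.norm_GG (h : Loc β v z s M f F) (hs : s < 1 / 4) (k : ℕ) (x : ℝ) :
    ‖GG z F k x‖ ≤ M * (1 / 4) ^ k := by
  have hM : 0 ≤ M := (norm_nonneg _).trans (h.fbd 0)
  have hb : ∀ w ∈ sphere z (1 / 4), ‖(w - z) ^ k * F w x‖ ≤ (1 / 4) ^ k * M := by
    intro w hw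
    rw [mem_sphere, dist_eq_norm] at hw
    have hw' : w ∉ closedBall z s := by
      rw [mem_closedBall, dist_eq_norm]
      push Not
      linarith
    rw [norm_mul, norm_pow, hw]
    gcongr
    exact h.Fbd w hw' x
  have h1 := circleIntegral.norm_two_pi_i_inv_smul_integral_le_of_norm_le_const
    (by norm_num : (0 : ℝ) ≤ 1 / 4) hb
  have h2 : ‖GG z F k x‖ = ‖(2 * Real.pi * Complex.I : ℂ)⁻¹ •
      ∮ w in C(z, 1 / 4), (w - z) ^ k * F w x‖ := by
    rw [GG, neg_mul, norm_neg, smul_eq_mul]
  rw [h2]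
  refine h1.trans ?_
  have : 0 ≤ (1 / 4 : ℝ) ^ k * M := by positivity
  nlinarith

/-- bounds for the iterates -/
theorem Loc.iter (h : Loc β v z s M f F) (hs0 : 0 ≤ s) (hs : s < 1 / 4) (k : ℕ) (x : ℝ) :
    ‖((fun (h : ℝ → ℂ) (x : ℝ) => (Real.exp (v x) : ℂ) * h (x + β) - z * h x)^[k] f) x‖ ≤
      M * (1 / 4) ^ k := by
  have key : ∀ k : ℕ, (fun (h : ℝ → ℂ) (x : ℝ) => (Real.exp (v x) : ℂ) * h (x + β) - z * h x)^[k] f
      = GG z F k := by
    intro k
    induction k with
    | zero => rw [h.GG_zero hs0 hs]; rfl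
    | succ k ih =>
      rw [Function.iterate_succ_apply', ih]
      funext x
      exact h.GG_succ hs k x
  rw [key]
  exact h.norm_GG hs k x

end Pool.Agent.Bishop
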