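import Pool.Agent.Lib_helper47.Bishop.Defs

/-!
# The resonance step for local resolvents
-/

set_option autoImplicit false

open MeasureTheory Metric Set

namespace Pool.Agent.Bishop

/-- `e^{-2πiθ}` for complex `θ` -/
noncomputable def em (θ : ℂ) : ℂ := Complex.exp (-(2 * Real.pi * Complex.I * θ))

theorem ee_add (a b : ℝ) : ee (a + b) = ee a * ee b := by
  unfold ee
  rw [← Complex.exp_add]
  congr 1
  push_cast
  ring

theorem ee_int (n : ℤ) : ee (n : ℝ) = 1 := by
  unfold ee
  rw [show (2 * Real.pi * Complex.I * ((n : ℝ) : ℂ) : ℂ) = n * (2 * Real.pi * Complex.I) by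
    push_cast; ring]
  exact Complex.exp_int_mul_two_pi_mul_I n

theorem norm_ee (θ : ℝ) : ‖ee θ‖ = 1 := by
  unfold ee
  rw [Complex.norm_exp]
  simp

theorem em_ofReal (θ : ℝ) : em (θ : ℂ) = ee (-θ) := by
  unfold em ee
  congr 1
  push_cast
  ring

theorem continuous_ee : Continuous ee := by
  unfold ee
  fun_prop

/-- the domain lemma -/
theorem dom_step {z w θ : ℂ} {s R : ℝ} (hz : ‖z‖ = 1) (hs : 0 ≤ s) (hs4 : s ≤ 1 / 4)
    (hR : R ≤ 3 / 100) (hθ : ‖θ‖ ≤ R) (hw : w ∉ closedBall z (s + 10 * R)) :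
    w * em θ ∉ closedBall z s := by
  intro hcon
  apply hw
  rw [mem_closedBall, dist_eq_norm] at hcon ⊢
  have hR0 : 0 ≤ R := (norm_nonneg _).trans hθ
  set E : ℂ := Complex.exp (2 * Real.pi * Complex.I * θ) with hE
  have hem : em θ * E = 1 := by
    rw [hE, em, ← Complex.exp_add]
    simp
  have hpi : Real.pi < 3.15 := Real.pi_lt_d2
  have hpi0 : 0 < Real.pi := Real.pi_pos
  have hnorm : ‖(2 * Real.pi * Complex.I * θ : ℂ)‖ = 2 * Real.pi * ‖θ‖ := by
    rw [norm_mul, norm_mul, norm_mul, Complex.norm_I, Complex.norm_real]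
    simp [abs_of_pos hpi0]
  have hn1 : ‖(2 * Real.pi * Complex.I * θ : ℂ)‖ ≤ 6.3 * R := by
    rw [hnorm]
    nlinarith [norm_nonneg θ]
  have hE1 : ‖E - 1‖ ≤ 7.5 * R := by
    have h1 := Complex.norm_exp_sub_one_sub_id_le (x := (2 * Real.pi * Complex.I * θ : ℂ))
      (by linarith)
    have h2 : ‖E - 1‖ ≤ ‖E - 1 - 2 * Real.pi * Complex.I * θ‖ + ‖(2 * Real.pi * Complex.I * θ : ℂ)‖ := by
      have := norm_add_le (E - 1 - 2 * Real.pi * Complex.I * θ) (2 * Real.pi * Complex.I * θ)
      simpa using this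
    have h3 : ‖(2 * Real.pi * Complex.I * θ : ℂ)‖ ^ 2 ≤ (6.3 * R) ^ 2 :=
      pow_le_pow_left₀ (norm_nonneg _) hn1 2
    have h4 : (6.3 * R) ^ 2 ≤ 1.2 * R := by nlinarith
    linarith [h1]
  have hEn : ‖E‖ ≤ 1 + 7.5 * R := by
    have : ‖E‖ ≤ ‖E - 1‖ + ‖(1 : ℂ)‖ := by
      have := norm_add_le (E - 1) 1
      simpa using this
    rw [norm_one] at this
    linarith
  have key : w - z = (w * em θ - z) * E + z * (E - 1) := by
    have : w * em θ * E = w := by rw [mul_assoc, hem, mul_one]
    linear_combination -this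
  calc ‖w - z‖ = ‖(w * em θ - z) * E + z * (E - 1)‖ := by rw [key]
    _ ≤ ‖w * em θ - z‖ * ‖E‖ + ‖z‖ * ‖E - 1‖ := by
        refine (norm_add_le _ _).trans ?_
        rw [norm_mul, norm_mul]
    _ ≤ s * (1 + 7.5 * R) + 1 * (7.5 * R) := by
        rw [hz]
        gcongr
    _ ≤ s + 10 * R := by nlinarith

theorem norm_em_le {θ : ℂ} {R : ℝ} (hθ : ‖θ‖ ≤ R) : ‖em θ‖ ≤ Real.exp (2 * Real.pi * R) := by
  rw [em, Complex.norm_exp]
  apply Real.exp_le_exp.mpr
  have h1 : (-(2 * Real.pi * Complex.I * θ : ℂ)).re ≤ ‖(-(2 * Real.pi * Complex.I * θ) : ℂ)‖ :=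
    Complex.re_le_norm _
  have h2 : ‖(-(2 * Real.pi * Complex.I * θ) : ℂ)‖ = 2 * Real.pi * ‖θ‖ := by
    rw [norm_neg, norm_mul, norm_mul, norm_mul, Complex.norm_I, Complex.norm_real]
    simp [abs_of_pos Real.pi_pos]
  rw [h2] at h1
  refine h1.trans ?_
  have := Real.pi_pos
  gcongr

/-- The resonance step. -/
theorem loc_step {β : ℝ} {v : ℝ → ℝ} {z : ℂ} {s M : ℝ} {f : ℝ → ℂ} {F : ℂ → ℝ → ℂ}
    (h : Loc β v z s M f F) (hz : ‖z‖ = 1) (hs : 0 ≤ s) (hs4 : s ≤ 1 / 4) {q : ℕ}
    {R τ : ℝ} (hR : 0 < R) (hR1 : R ≤ 3 / 100) (hτ : 0 ≤ τ)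
    (hper : ∀ y, Ph q (y + 1) = Ph q y) (hcont : Continuous (Ph q))
    {N : ℕ} {g : ℤ → ℂ} {m : ℝ → ℝ}
    (hN : (N : ℝ) * |dl β q| ≤ R / 16)
    (hm : ∀ y, ((m y : ℝ) : ℂ) = Real.exp (-(Ph q y / (q * dl β q))) *
      ∑ l ∈ Finset.Icc (-(N : ℤ)) N, g l * ee (l * y))
    (htr : ∀ (y M : ℝ) (Ψ : ℂ → ℂ), DifferentiableOn ℂ Ψ (ball 0 R) →
      (∀ z ∈ ball (0 : ℂ) R, ‖Ψ z‖ ≤ M) →
      ‖(Real.exp (-(Ph q y / (q * dl β q))) : ℂ) *
        ∑ l ∈ Finset.Icc (-(N : ℤ)) N, g l * ee (l * y) * Ψ ((l * dl β q : ℝ) : ℂ)‖ ≤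
      (1 + τ) * M) :
    ∃ F' : ℂ → ℝ → ℂ, Loc β (fun x => v x + (kk β q (x + β) - kk β q x)) z (s + 10 * R)
      ((1 + τ) * Real.exp (2 * Real.pi * R) * M) (fun x => (m (q * x) : ℂ) * f x) F' := by
  have hM : 0 ≤ M := (norm_nonneg _).trans (h.fbd 0)
  set δ := dl β q with hδ
  have hperZ : ∀ (n : ℤ) (y : ℝ), Ph q (y + n) = Ph q y := by
    intro n y
    have hp : Function.Periodic (Ph q) 1 := hper
    simpa using hp.int_mul n y
  have hkper : ∀ x, kk β q (x + 1) = kk β q x := by
    intro x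
    unfold kk
    rw [show (q : ℝ) * (x + 1) = q * x + ((q : ℤ) : ℝ) by push_cast; ring, hperZ]
  have hkm : Measurable (kk β q) := by
    unfold kk
    exact ((hcont.comp (continuous_const.mul continuous_id)).div_const _).measurable
  have hqβ : (q : ℝ) * β = δ + ((round ((q : ℝ) * β) : ℤ) : ℝ) := by
    rw [hδ, dl]; ring
  -- the new resolvent
  let F' : ℂ → ℝ → ℂ := fun w x => (Real.exp (-(kk β q x)) : ℂ) *
    ∑ l ∈ Finset.Icc (-(N : ℤ)) N, g l * ee (l * (q * x)) *
      (ee (-(l * δ)) * F (w * ee (-(l * δ))) x)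
  have hl : ∀ l ∈ Finset.Icc (-(N : ℤ)) N, |(l : ℝ) * δ| < R := by
    intro l hl
    rw [Finset.mem_Icc] at hl
    have h1 : |(l : ℝ)| ≤ N := by
      rw [abs_le]
      exact ⟨by exact_mod_cast hl.1, by exact_mod_cast hl.2⟩
    rw [abs_mul]
    have h2 : |(l : ℝ)| * |δ| ≤ N * |δ| := by gcongr
    linarith
  have hdom : ∀ (w θ : ℂ), w ∉ closedBall z (s + 10 * R) → ‖θ‖ ≤ R → w * em θ ∉ closedBall z s :=
    fun w θ hw hθ => dom_step hz hs hs4 hR1 hθ hw
  have hdoml : ∀ w : ℂ, w ∉ closedBall z (s + 10 * R) → ∀ l ∈ Finset.Icc (-(N : ℤ)) N,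
      w * ee (-((l : ℝ) * δ)) ∉ closedBall z s := by
    intro w hw l hl'
    rw [← em_ofReal]
    apply hdom w _ hw
    rw [Complex.norm_real, Real.norm_eq_abs]
    exact (hl l hl').le
  have hopen : IsOpen (closedBall z s)ᶜ := isClosed_closedBall.isOpen_compl
  have hF'bd : ∀ w, w ∉ closedBall z (s + 10 * R) → ∀ x,
      ‖F' w x‖ ≤ (1 + τ) * Real.exp (2 * Real.pi * R) * M := by
    intro w hw x
    have h1 := htr (q * x) (Real.exp (2 * Real.pi * R) * M) (fun θ => em θ * F (w * em θ) x) ?_ ?_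
    · rw [← mul_assoc] at h1
      refine le_of_eq_of_le ?_ h1
      congr 1
      simp only [F', kk]
      congr 1
      refine Finset.sum_congr rfl fun l _ => ?_
      rw [em_ofReal]
    · have hemd : Differentiable ℂ em := by
        unfold em
        fun_prop
      refine DifferentiableOn.mul hemd.differentiableOn ?_
      have : DifferentiableOn ℂ (fun θ : ℂ => w * em θ) (ball 0 R) :=
        (hemd.const_mul w).differentiableOn
      refine (h.Fdiff x).comp this ?_
      intro θ hθ
      rw [mem_ball, dist_zero_right] at hθ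
      exact hdom w θ hw hθ.le
    · intro θ hθ
      rw [mem_ball, dist_zero_right] at hθ
      rw [norm_mul]
      exact mul_le_mul (norm_em_le hθ.le) (h.Fbd _ (hdom w θ hw hθ.le) x) (norm_nonneg _)
        (Real.exp_pos _).le
  have hmbd : ∀ y, |m y| ≤ 1 + τ := by
    intro y
    have h1 := htr y 1 (fun _ => 1) (differentiableOn_const _) (by simp)
    simp only [mul_one] at h1
    rw [← hm y, Complex.norm_real, Real.norm_eq_abs] at h1
    exact h1
  have hmm : Measurable m := by
    have h1 : Measurable (fun y => (Real.exp (-(Ph q y / (q * δ))) : ℂ) *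
        ∑ l ∈ Finset.Icc (-(N : ℤ)) N, g l * ee (l * y)) := by
      apply Continuous.measurable
      apply Continuous.mul
      · exact Complex.continuous_ofReal.comp (Real.continuous_exp.comp (hcont.div_const _).neg)
      · refine continuous_finsetSum _ fun l _ => ?_
        exact continuous_const.mul (continuous_ee.comp (continuous_const.mul continuous_id))
    have h2 : m = fun y => ((Real.exp (-(Ph q y / (q * δ))) : ℂ) *
        ∑ l ∈ Finset.Icc (-(N : ℤ)) N, g l * ee (l * y)).re := by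
      funext y
      rw [← hm y]
      simp
    rw [h2]
    exact Complex.measurable_re.comp h1
  have hmper : ∀ y, m (y + 1) = m y := by
    intro y
    have : ((m (y + 1) : ℝ) : ℂ) = m y := by
      rw [hm, hm, hper]
      congr 1
      refine Finset.sum_congr rfl fun l _ => ?_
      rw [mul_add, ee_add, mul_one, ee_int, mul_one]
    exact_mod_cast this
  have hmperZ : ∀ (n : ℕ) (y : ℝ), m (y + n) = m y := by
    intro n y
    have hp : Function.Periodic m 1 := hmper
    simpa using hp.nat_mul n y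
  refine ⟨F', ⟨?_, ?_, ?_, ?_, ?_, hF'bd, ?_, ?_⟩⟩
  · -- measurability of f
    have h1 : Measurable fun x : ℝ => m (q * x) := hmm.comp (measurable_const.mul measurable_id)
    exact (Complex.measurable_ofReal.comp h1).mul h.fmeas
  · intro x
    show (m (q * (x + 1)) : ℂ) * f (x + 1) = (m (q * x) : ℂ) * f x
    rw [h.fper, show (q : ℝ) * (x + 1) = q * x + (q : ℕ) by ring, hmperZ]
  · intro x
    rw [norm_mul, Complex.norm_real, Real.norm_eq_abs]
    have h1 : 1 ≤ Real.exp (2 * Real.pi * R) := by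
      apply Real.one_le_exp
      have := Real.pi_pos
      positivity
    calc |m (q * x)| * ‖f x‖ ≤ (1 + τ) * M := by
          gcongr
          · exact hmbd _
          · exact h.fbd x
      _ ≤ (1 + τ) * Real.exp (2 * Real.pi * R) * M := by
          gcongr
          nlinarith
  · intro w
    simp only [F']
    refine Measurable.mul ?_ ?_
    · exact Complex.measurable_ofReal.comp (Real.measurable_exp.comp hkm.neg)
    · refine Finset.measurable_sum _ fun l _ => ?_
      refine Measurable.mul (Measurable.mul measurable_const ?_) ?_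
      · exact continuous_ee.measurable.comp
          (measurable_const.mul (measurable_const.mul measurable_id))
      · exact measurable_const.mul (h.Fmeas _)
  · intro w x
    simp only [F']
    rw [hkper]
    congr 1
    refine Finset.sum_congr rfl fun l _ => ?_
    rw [h.Fper, show (l : ℝ) * (q * (x + 1)) = l * (q * x) + ((l * q : ℤ) : ℝ) by
      push_cast; ring, ee_add, ee_int, mul_one]
  · intro x
    simp only [F']
    refine DifferentiableOn.const_mul ?_ _
    refine DifferentiableOn.fun_sum fun l hl' => ?_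
    refine DifferentiableOn.const_mul ?_ _
    refine DifferentiableOn.const_mul ?_ _
    have : DifferentiableOn ℂ (fun w : ℂ => w * ee (-((l : ℝ) * δ))) (closedBall z (s + 10 * R))ᶜ :=
      (differentiable_id.mul_const _).differentiableOn
    exact (h.Fdiff x).comp this fun w hw => hdoml w hw l hl'
  · intro w hw x
    have h1 : ∀ l ∈ Finset.Icc (-(N : ℤ)) N,
        g l * ee (l * (q * (x + β))) * (ee (-(l * δ)) * F (w * ee (-(l * δ))) (x + β)) =
        g l * ee (l * (q * x)) * F (w * ee (-(l * δ))) (x + β) := by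
      intro l _
      have e1 : ee (l * (q * (x + β))) * ee (-(l * δ)) = ee (l * (q * x)) := by
        rw [← ee_add]
        have : (l : ℝ) * (q * (x + β)) + -(l * δ) =
            l * (q * x) + ((l * round ((q : ℝ) * β) : ℤ) : ℝ) := by
          push_cast
          linear_combination (l : ℝ) * hqβ
        rw [this, ee_add, ee_int, mul_one]
      linear_combination (g l * F (w * ee (-(l * δ))) (x + β)) * e1
    have h2 : (Real.exp (v x + (kk β q (x + β) - kk β q x)) : ℂ) *
        (Real.exp (-(kk β q (x + β))) : ℂ) =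
        (Real.exp (-(kk β q x)) : ℂ) * (Real.exp (v x) : ℂ) := by
      rw [← Complex.ofReal_mul, ← Complex.ofReal_mul, ← Real.exp_add, ← Real.exp_add]
      congr 2
      ring
    have h3 : ∀ l ∈ Finset.Icc (-(N : ℤ)) N,
        (Real.exp (v x) : ℂ) * F (w * ee (-((l : ℝ) * δ))) (x + β) =
        w * ee (-(l * δ)) * F (w * ee (-(l * δ))) x + f x := by
      intro l hl'
      have := h.eqn _ (hdoml w hw l hl') x
      linear_combination this
    calc (Real.exp (v x + (kk β q (x + β) - kk β q x)) : ℂ) * F' w (x + β) - w * F' w x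
        = (Real.exp (-(kk β q x)) : ℂ) * ∑ l ∈ Finset.Icc (-(N : ℤ)) N, g l * ee (l * (q * x)) *
          ((Real.exp (v x) : ℂ) * F (w * ee (-(l * δ))) (x + β)) - w * F' w x := by
          congr 1
          simp only [F']
          rw [← mul_assoc, h2, mul_assoc]
          congr 1
          rw [Finset.sum_congr rfl h1, Finset.mul_sum]
          refine Finset.sum_congr rfl fun l _ => ?_
          ring
      _ = (Real.exp (-(kk β q x)) : ℂ) * ∑ l ∈ Finset.Icc (-(N : ℤ)) N, g l * ee (l * (q * x)) *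
          f x := by
          have : ∑ l ∈ Finset.Icc (-(N : ℤ)) N, g l * ee (l * (q * x)) *
            ((Real.exp (v x) : ℂ) * F (w * ee (-(l * δ))) (x + β)) =
            ∑ l ∈ Finset.Icc (-(N : ℤ)) N, (w * (g l * ee (l * (q * x)) *
              (ee (-(l * δ)) * F (w * ee (-(l * δ))) x)) + g l * ee (l * (q * x)) * f x) := by
            refine Finset.sum_congr rfl fun l hl' => ?_
            rw [h3 l hl']
            ring
          rw [this, Finset.sum_add_distrib, ← Finset.mul_sum]
          simp only [F']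
          ring
      _ = (m (q * x) : ℂ) * f x := by
          rw [hm, ← Finset.sum_mul, ← mul_assoc]
          simp only [kk, hδ]

end Pool.Agent.Bishop
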